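import Pool.Agent.Lib.MC86.Main

open Pool.Agent.Lib.MP_2f2576_co

namespace Pool.Agent.Results.MP_2f2576_co.MetabelianCayley

/-- Minimal Cayley graphs of finite metabelian groups have arbitrarily small independence ratio,
hence unbounded chromatic number; they are no lonely colour and no pied circuit graphs. -/
theorem result (m : ℕ) :
    ∃ (G : Type) (_ : Group G) (_ : Finite G) (S : Set G),
      derivedSeries G 2 = ⊥ ∧ Subgroup.closure S = ⊤ ∧
      (∀ T : Set G, T ⊂ S → Subgroup.closure T ≠ ⊤) ∧
      NoLonely (SimpleGraph.mulCayley S) ∧ NoPied (SimpleGraph.mulCayley S) ∧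
      m * (SimpleGraph.mulCayley S).indepNum < Nat.card G ∧
      (m : ℕ∞) < (SimpleGraph.mulCayley S).chromaticNumber :=
  Pool.Agent.Lib.MC86.sparse m

end Pool.Agent.Results.MP_2f2576_co.MetabelianCayley
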