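import Pool.Agent.Lib.NL57.TopUp

open Pool.Agent.Lib.MP_2f2576_co Pool.Agent.Lib.NL57

namespace Pool.Agent.Results.MP_2f2576_co.PiedOrder

/-- The largest fractional chromatic number of a graph on at most `n` vertices with an edge
colouring in which the largest colour of every circuit occurs twice has exact order
`log n / log log n`; it is attained by no pied circuit graphs of arbitrarily large girth. -/
theorem result (g : ℕ) : ∃ n₀ : ℕ, ∀ n ≥ n₀,
    (∀ (V : Type) [Fintype V] (X : SimpleGraph V), Fintype.card V ≤ n → TopTwice X →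
      fracChrom X ≤ 1024 * (Real.log n / Real.log (Real.log n))) ∧
    ∃ (V : Type) (_ : Fintype V) (X : SimpleGraph V), 0 < Fintype.card V ∧ Fintype.card V ≤ n ∧
      TopTwice X ∧ NoPied X ∧ (g : ℕ∞) < X.egirth ∧
      1 / 16 * (Real.log n / Real.log (Real.log n)) * X.indepNum ≤ Fintype.card V ∧
      1 / 16 * (Real.log n / Real.log (Real.log n)) ≤ fracChrom X ∧
      ∀ m : ℕ, X.Colorable m → 1 / 16 * (Real.log n / Real.log (Real.log n)) ≤ m :=
  top_sharp g

end Pool.Agent.Results.MP_2f2576_co.PiedOrder
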