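import Pool.Agent.Lib.NL57.Lower

open Pool.Agent.Lib.MP_2f2576_co Pool.Agent.Lib.NL57

namespace Pool.Agent.Results.MP_2f2576_co.SharpOrder

/-- The largest fractional chromatic number of a no lonely colour graph on at most `n` vertices has
exact order `log n / (log log n) ^ 2`, and it is attained with arbitrarily large girth. -/
theorem result (g : ℕ) : ∃ n₀ : ℕ, ∀ n ≥ n₀,
    (∀ (V : Type) [Fintype V] (X : SimpleGraph V), Fintype.card V ≤ n → NoLonely X →
      fracChrom X ≤ 2048 * (Real.log n / Real.log (Real.log n) ^ 2)) ∧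
    ∃ (V : Type) (_ : Fintype V) (X : SimpleGraph V), 0 < Fintype.card V ∧ Fintype.card V ≤ n ∧
      NoLonely X ∧ (g : ℕ∞) < X.egirth ∧
      1 / 64 * (Real.log n / Real.log (Real.log n) ^ 2) * X.indepNum ≤ Fintype.card V ∧
      1 / 64 * (Real.log n / Real.log (Real.log n) ^ 2) ≤ fracChrom X ∧
      ∀ m : ℕ, X.Colorable m → 1 / 64 * (Real.log n / Real.log (Real.log n) ^ 2) ≤ m :=
  sharp g

end Pool.Agent.Results.MP_2f2576_co.SharpOrder
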